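import Pool.Agent.helper61.CSW.W.SpecW

/-!
# csw:NRPA (MP_70a088_an, class S): equality in the triangle inequality makes the quotient constant (helper11)
-/

set_option autoImplicit false

open Complex Metric Set Filter Topology MeasureTheory
open YPPS (fd fdd pre TT CV IsCyc rho Exact)
open MPS (BB)
open Pool.Agent.helper98.ILF (juliaSet fatouSet)

noncomputable section

open CSS (SE SV JJ)

namespace YW

/-- equality in the triangle inequality. -/
theorem NRPA_tri {ι : Type} (a : ι → ℂ) (h1 : Summable a) (h2 : Summable (fun i => ‖a i‖)) (h3 : ∑' i, ‖a i‖ = ‖∑' i, a i‖) (i : ι) :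
    a i * (‖∑' i, a i‖ : ℂ) = (‖a i‖ : ℂ) * ∑' i, a i := by
  set S : ℂ := ∑' i, a i with hS
  have e1 : HasSum (fun i => ‖a i‖ * ‖S‖ - (a i * (starRingEnd ℂ) S).re) 0 := by
    have s1 : HasSum (fun i => ‖a i‖ * ‖S‖) (‖S‖ * ‖S‖) := by
      have := h2.hasSum.mul_right ‖S‖
      rwa [h3] at this
    have s2 : HasSum (fun i => (a i * (starRingEnd ℂ) S).re) ((S * (starRingEnd ℂ) S).re) := by
      have := h1.hasSum.mul_right ((starRingEnd ℂ) S)
      exact Complex.hasSum_re this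
    have s3 : (S * (starRingEnd ℂ) S).re = ‖S‖ * ‖S‖ := by
      rw [Complex.mul_conj, Complex.ofReal_re, Complex.normSq_eq_norm_sq]
      ring
    rw [s3] at s2
    have := s1.sub s2
    rwa [sub_self] at this
  have e2 : ∀ i, 0 ≤ ‖a i‖ * ‖S‖ - (a i * (starRingEnd ℂ) S).re := by
    intro i
    have := Complex.re_le_norm (a i * (starRingEnd ℂ) S)
    rw [norm_mul, RCLike.norm_conj] at this
    linarith
  have e3 := congrFun ((hasSum_zero_iff_of_nonneg e2).1 e1) i
  simp only [Pi.zero_apply] at e3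
  -- the product is real
  set w : ℂ := a i * (starRingEnd ℂ) S with hw
  have e4 : w.re = ‖w‖ := by
    rw [hw, norm_mul, RCLike.norm_conj]
    linarith
  have e5 : w.im = 0 := by
    have := Complex.sq_norm w
    rw [Complex.normSq_apply, ← e4] at this
    have h : w.im * w.im = 0 := by nlinarith
    exact mul_self_eq_zero.1 h
  have e6 : w = (‖a i‖ : ℂ) * (‖S‖ : ℂ) := by
    apply Complex.ext
    · rw [e4, hw, norm_mul, RCLike.norm_conj, ← Complex.ofReal_mul, Complex.ofReal_re]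
    · rw [e5, ← Complex.ofReal_mul, Complex.ofReal_im]
  by_cases hS0 : S = 0
  · have : ‖a i‖ = 0 := by
      have h4 : ∑' i, ‖a i‖ = 0 := by rw [h3, hS0, norm_zero]
      have h5 := (hasSum_zero_iff_of_nonneg (fun i => norm_nonneg (a i))).1 (by rw [← h4]; exact h2.hasSum)
      exact congrFun h5 i
    rw [norm_eq_zero] at this
    rw [this]
    simp
  · have hSn : (‖S‖ : ℂ) ≠ 0 := by
      exact_mod_cast (norm_pos_iff.2 hS0).ne'
    have e7 : (starRingEnd ℂ) S * S = (‖S‖ : ℂ) * (‖S‖ : ℂ) := by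
      rw [mul_comm, Complex.mul_conj, Complex.normSq_eq_norm_sq]
      push_cast
      ring
    have e8 : (‖S‖ : ℂ) * (a i * (‖S‖ : ℂ)) = (‖S‖ : ℂ) * ((‖a i‖ : ℂ) * S) := by
      calc (‖S‖ : ℂ) * (a i * (‖S‖ : ℂ)) = a i * ((starRingEnd ℂ) S * S) := by rw [e7]; ring
        _ = w * S := by rw [hw]; ring
        _ = _ := by rw [e6]; ring
    exact mul_left_cancel₀ hSn e8

theorem NRPA (hSMB : YPPS.SMB_stmt) (hMCV : YPPS.MCV_stmt) (hCRC : SPPS.CRC_stmt) : NRPA_stmt := by
  intro f P q hP hq hDC hT hD hne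
  obtain ⟨cC, cP, -⟩ := hCRC f
  -- the exceptional set and its preimage
  set E : Set ℂ := {z : ℂ | ¬ (TT f q z = q z ∧ YXPS.Df f q z = 0)} with hE
  have hE0 : volume E = 0 := by
    have := hT.and hD
    exact this
  have hpre : volume {y : ℂ | f.eval y ∈ toMeasurable volume E} = 0 := by
    have h1 := hMCV f (fun _ => 1) (toMeasurable volume E) measurable_const (measurableSet_toMeasurable _ _)
    rw [Measure.restrict_eq_zero.2 (by rw [measure_toMeasurable]; exact hE0), lintegral_zero_measure] at h1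
    simp only [lintegral_const, one_mul, Measure.restrict_apply MeasurableSet.univ, univ_inter] at h1
    exact h1.symm
  have hae : ∀ᵐ y : ℂ, f.eval y ∉ E := by
    have h1 : ∀ᵐ y : ℂ, y ∉ {y : ℂ | f.eval y ∈ toMeasurable volume E} := by
      rw [ae_iff]
      simpa using hpre
    filter_upwards [h1] with y hy hyE
    exact hy (subset_toMeasurable _ _ hyE)
  have haeP : ∀ᵐ y : ℂ, y ∉ P := hP.countable.ae_notMem volume
  have haefP : ∀ᵐ y : ℂ, f.eval y ∉ P := (cP P hP.countable).ae_notMem volume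
  have haeC : ∀ᵐ y : ℂ, fd f y ≠ 0 := cC.ae_notMem volume
  -- the key relation
  have hkey : ∀ y : ℂ, f.eval y ∉ E → fd f y ≠ 0 → q y ≠ 0 → ∃ t : ℝ, 0 < t ∧ q (f.eval y) * fd f y ^ 2 = (t : ℂ) * q y := by
    intro y hy hfd hqy
    simp only [hE, mem_setOf_eq, not_not] at hy
    obtain ⟨hy1, hy2⟩ := hy
    obtain ⟨s1, s2⟩ := hSMB f q hDC (f.eval y)
    have hnorm : ∀ x : pre f (f.eval y), ‖q x / fd f x ^ 2‖ = ‖q x‖ / ‖fd f x‖ ^ 2 := by
      intro x
      rw [norm_div, norm_pow]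
    have s2' : Summable (fun x : pre f (f.eval y) => ‖q x / fd f x ^ 2‖) := by
      simpa only [hnorm] using s2
    have hsum : ∑' x : pre f (f.eval y), ‖q x / fd f x ^ 2‖ = ‖∑' x : pre f (f.eval y), q x / fd f x ^ 2‖ := by
      simp only [hnorm]
      simp only [YXPS.Df] at hy2
      have : (∑' x : pre f (f.eval y), ‖q x‖ / ‖fd f x‖ ^ 2) = ‖TT f q (f.eval y)‖ := by linarith
      rw [this]
      rfl
    have hS : ∑' x : pre f (f.eval y), q x / fd f x ^ 2 = q (f.eval y) := hy1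
    have h1 := NRPA_tri _ s1 s2' hsum ⟨y, rfl⟩
    rw [hS] at h1 hsum
    simp only at h1
    set a : ℂ := q y / fd f y ^ 2 with ha
    have ha0 : a ≠ 0 := div_ne_zero hqy (pow_ne_zero 2 hfd)
    have hS0 : q (f.eval y) ≠ 0 := by
      intro h0
      rw [h0, norm_zero] at hsum
      have h5 := (hasSum_zero_iff_of_nonneg (fun x : pre f (f.eval y) => norm_nonneg (q x / fd f x ^ 2))).1 (by rw [← hsum]; exact s2'.hasSum)
      have h6 := congrFun h5 ⟨y, rfl⟩
      simp only [Pi.zero_apply, norm_eq_zero] at h6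
      exact ha0 h6
    refine ⟨‖q (f.eval y)‖ / ‖a‖, div_pos (norm_pos_iff.2 hS0) (norm_pos_iff.2 ha0), ?_⟩
    have han : (‖a‖ : ℂ) ≠ 0 := by exact_mod_cast (norm_pos_iff.2 ha0).ne'
    have hqa : q y = a * fd f y ^ 2 := by rw [ha]; field_simp
    have h2 : q (f.eval y) = ((‖q (f.eval y)‖ / ‖a‖ : ℝ) : ℂ) * a := by
      push_cast
      rw [div_mul_eq_mul_div, eq_div_iff han]
      linear_combination -h1
    calc q (f.eval y) * fd f y ^ 2 = (((‖q (f.eval y)‖ / ‖a‖ : ℝ) : ℂ) * a) * fd f y ^ 2 := by rw [← h2]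
      _ = _ := by rw [hqa]; ring
  -- the domain
  set D : Set ℂ := {y : ℂ | y ∉ P ∧ f.eval y ∉ P} with hDdef
  have hfc : Continuous (fun y => f.eval y) := f.dif.continuous
  have hDo : IsOpen D := by
    have : D = Pᶜ ∩ (fun y => f.eval y) ⁻¹' Pᶜ := by
      ext y; rfl
    rw [this]
    exact hP.isClosed.isOpen_compl.inter (hP.isClosed.isOpen_compl.preimage hfc)
  have hDc : IsPreconnected D := by
    have h1 : (P ∪ {y : ℂ | f.eval y ∈ P}).Countable := hP.countable.union (cP P hP.countable)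
    have h2 : D = (P ∪ {y : ℂ | f.eval y ∈ P})ᶜ := by
      ext y
      simp only [hDdef, mem_setOf_eq, mem_compl_iff, mem_union, not_or]
    rw [h2]
    exact (h1.isConnected_compl_of_one_lt_rank (by rw [Complex.rank_real_complex]; norm_num)).isPreconnected
  have hfdd : Differentiable ℂ (fd f) := YPPS.fd_dif f
  have hud : DifferentiableOn ℂ (fun y => q (f.eval y) * fd f y ^ 2) D := by
    refine DifferentiableOn.mul ?_ (hfdd.pow 2).differentiableOn
    exact hq.comp f.dif.differentiableOn (fun y hy => hy.2)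
  have hvd : DifferentiableOn ℂ q D := hq.mono (fun y hy => hy.1)
  -- a good point
  obtain ⟨y₀, hy₀q, hy₀E, hy₀P, hy₀f, hy₀C⟩ : ∃ y₀ : ℂ, q y₀ ≠ 0 ∧ f.eval y₀ ∉ E ∧ y₀ ∉ P ∧ f.eval y₀ ∉ P ∧ fd f y₀ ≠ 0 := by
    by_contra hcon
    push Not at hcon
    apply hne
    filter_upwards [hae, haeP, haefP, haeC] with y h1 h2 h3 h4
    by_contra h5
    exact h4 (hcon y h5 h1 h2 h3)
  obtain ⟨κ₀, hκ, hκe⟩ := hkey y₀ hy₀E hy₀C hy₀q
  have hy₀D : y₀ ∈ D := ⟨hy₀P, hy₀f⟩
  -- a ball
  obtain ⟨r, hr, hball⟩ : ∃ r > (0 : ℝ), ball y₀ r ⊆ D ∩ {y | q y ≠ 0} := by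
    have h1 : ∀ᶠ y in 𝓝 y₀, q y ≠ 0 := ((hvd.continuousOn.continuousAt (hDo.mem_nhds hy₀D)).eventually_ne hy₀q)
    have h2 : D ∩ {y | q y ≠ 0} ∈ 𝓝 y₀ := inter_mem (hDo.mem_nhds hy₀D) h1
    exact Metric.mem_nhds_iff.1 h2
  have hbD : ball y₀ r ⊆ D := fun y hy => (hball hy).1
  have hbq : ∀ y ∈ ball y₀ r, q y ≠ 0 := fun y hy => (hball hy).2
  have hquot : DifferentiableOn ℂ (fun y => q (f.eval y) * fd f y ^ 2 / q y) (ball y₀ r) := (hud.mono hbD).div (hvd.mono hbD) hbq
  have him : EqOn (fun y => (q (f.eval y) * fd f y ^ 2 / q y).im) (fun _ => 0) (ball y₀ r) := by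
    refine Measure.eqOn_open_of_ae_eq (μ := volume) ?_ isOpen_ball (Complex.continuous_im.comp_continuousOn hquot.continuousOn) continuousOn_const
    rw [EventuallyEq, ae_restrict_iff' measurableSet_ball]
    filter_upwards [hae, haeC] with y h1 h2 h3
    obtain ⟨t, -, ht⟩ := hkey y h1 h2 (hbq y h3)
    rw [ht, mul_div_assoc, div_self (hbq y h3), mul_one, Complex.ofReal_im]
  have hconst : ∀ y ∈ ball y₀ r, q (f.eval y) * fd f y ^ 2 / q y = (κ₀ : ℂ) := by
    have hval : q (f.eval y₀) * fd f y₀ ^ 2 / q y₀ = (κ₀ : ℂ) := by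
      rw [hκe, mul_div_assoc, div_self hy₀q, mul_one]
    rcases (hquot.analyticOnNhd isOpen_ball).is_constant_or_isOpen (convex_ball y₀ r).isPreconnected with ⟨w, hw⟩ | h
    · intro y hy
      have h1 := hw y hy
      have h2 := hw y₀ (mem_ball_self hr)
      rw [h1, ← h2]
      exact hval
    · exfalso
      have h1 := h (ball y₀ r) subset_rfl isOpen_ball
      have h2 : (κ₀ : ℂ) ∈ (fun y => q (f.eval y) * fd f y ^ 2 / q y) '' ball y₀ r := ⟨y₀, mem_ball_self hr, hval⟩
      obtain ⟨ε, hε, hsub⟩ := Metric.isOpen_iff.1 h1 _ h2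
      have h3 : (κ₀ : ℂ) + ((ε / 2 : ℝ) : ℂ) * I ∈ ball (κ₀ : ℂ) ε := by
        rw [mem_ball, dist_eq_norm, add_sub_cancel_left, norm_mul, Complex.norm_I, mul_one, Complex.norm_real, Real.norm_of_nonneg (by positivity)]
        linarith
      obtain ⟨y, hy, hye⟩ := hsub h3
      have h4 := him hy
      simp only at h4 hye
      rw [hye] at h4
      simp at h4
      linarith
  -- identity theorem
  have hEq : EqOn (fun y => q (f.eval y) * fd f y ^ 2) (fun y => (κ₀ : ℂ) * q y) D := by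
    refine (hud.analyticOnNhd hDo).eqOn_of_preconnected_of_eventuallyEq ((hvd.const_mul _).analyticOnNhd hDo) hDc hy₀D ?_
    filter_upwards [ball_mem_nhds y₀ hr] with y hy
    have h1 := hconst y hy
    rwa [div_eq_iff (hbq y hy)] at h1
  refine ⟨κ₀, hκ, (hP.countable.union (cP P hP.countable)).mono ?_⟩
  intro y hy
  by_contra hcon
  simp only [mem_union, mem_setOf_eq, not_or] at hcon
  exact hy (hEq ⟨hcon.1, hcon.2⟩)

end YW
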